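import Mathlib
import Pool.Agent.Lib.MP_12ff4f_co.K4.DataB
import Pool.Agent.Lib.MP_12ff4f_co.K4.LowerFour

set_option autoImplicit false

namespace Pool.Agent.Results.MP_12ff4f_co.KFourConstant

open Filter

/-- **`(11/5) (n - 1) ≤ g(K_4, K_n) ≤ (19/8 + o(1)) n`.** -/
theorem result :
    (∀ n k : ℕ, Pool.Agent.BicliqueK4.HasPartition 4 n k → 11 * n ≤ 5 * k + 11) ∧
    (∀ ε : ℝ, 0 < ε → ∀ᶠ n : ℕ in atTop, ∃ k : ℕ,
      (k : ℝ) ≤ (19 / 8 + ε) * n ∧ Pool.Agent.BicliqueK4.HasPartition 4 n k) := by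
  refine ⟨fun n k h => Pool.Agent.BicliqueHalf.K4.lower4 h, fun ε hε => ?_⟩
  have h := Pool.Agent.BicliqueHalf.K4.certDataB.upper (by norm_num) ε hε
  simp only [Nat.cast_ofNat] at h
  exact h

end Pool.Agent.Results.MP_12ff4f_co.KFourConstant
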