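import Mathlib
import Pool.Agent.Lib.MP_12ff4f_co.K4.Three

set_option autoImplicit false

namespace Pool.Agent.Results.MP_12ff4f_co.KThreeExact

open Filter

/-- **`g(K_3, K_n) = (9/5 + o(1)) n`**, and `g(K_3, K_n) ≥ (9/5) (n - 1)` for all `n`. -/
theorem result :
    (∀ n k : ℕ, Pool.Agent.BicliqueK4.HasPartition 3 n k → 9 * n ≤ 5 * k + 9) ∧
    (∀ ε : ℝ, 0 < ε → ∀ᶠ n : ℕ in atTop, ∃ k : ℕ,
      (k : ℝ) ≤ (9 / 5 + ε) * n ∧ Pool.Agent.BicliqueK4.HasPartition 3 n k) := by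
  refine ⟨fun n k h => Pool.Agent.BicliqueHalf.K4.lower3 h, fun ε hε => ?_⟩
  have h := Pool.Agent.BicliqueHalf.K4.cert3.upper (by norm_num) ε hε
  simp only [Nat.cast_ofNat] at h
  exact h

end Pool.Agent.Results.MP_12ff4f_co.KThreeExact
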